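import Pool.Agent.H95.AD.TargetsU

/-!
# Almost all discriminants: the dependence of the coefficients on the discriminant (row DSM)
-/

set_option autoImplicit false

open MeasureTheory Set Filter
open scoped Real

namespace Pool.Agent.H6.AD

open Pool.Agent.H31.CN Pool.Agent.H95.AD

theorem pf_DSM : T_DSM := by
  intro ι _ ρ α Y hY hs
  have key : ∀ D ∈ Finset.Ico Y (2 * Y), ‖∑' i, (α i D : ℂ) * ρ i D‖ ^ 2 ≤
      2 * ‖∑' i, (α i (2 * Y) : ℂ) * ρ i D‖ ^ 2 +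
      2 * Y * ∑ j ∈ Finset.Ico Y (2 * Y),
        ‖∑' i, ((α i (j + 1) - α i j : ℝ) : ℂ) * ρ i D‖ ^ 2 := by
    intro D hD
    have hD' := Finset.mem_Ico.1 hD
    set S : ℕ → ℂ := fun j => ∑' i, (α i j : ℂ) * ρ i D with hS
    have hsum : ∀ j, Y ≤ j → j ≤ 2 * Y → Summable (fun i => (α i j : ℂ) * ρ i D) := by
      intro j h1 h2
      exact (hs j (Finset.mem_Icc.2 ⟨h1, h2⟩) D hD).of_norm
    have hT : ∀ j ∈ Finset.Ico Y (2 * Y),
        ∑' i, ((α i (j + 1) - α i j : ℝ) : ℂ) * ρ i D = S (j + 1) - S j := by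
      intro j hj
      have hj' := Finset.mem_Ico.1 hj
      rw [hS]
      show _ = (∑' i, (α i (j + 1) : ℂ) * ρ i D) - ∑' i, (α i j : ℂ) * ρ i D
      rw [← (hsum (j + 1) (by omega) (by omega)).tsum_sub (hsum j hj'.1 (by omega))]
      refine tsum_congr fun i => ?_
      push_cast
      ring
    have htel : ∑ j ∈ Finset.Ico D (2 * Y), (S (j + 1) - S j) = S (2 * Y) - S D :=
      Finset.sum_Ico_sub S (by omega)
    have h1 : S D = S (2 * Y) - ∑ j ∈ Finset.Ico D (2 * Y), (S (j + 1) - S j) := by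
      rw [htel]
      ring
    have h2 : ‖S D‖ ^ 2 ≤ 2 * ‖S (2 * Y)‖ ^ 2 +
        2 * ‖∑ j ∈ Finset.Ico D (2 * Y), (S (j + 1) - S j)‖ ^ 2 := by
      have h3 : ‖S D‖ ≤ ‖S (2 * Y)‖ + ‖∑ j ∈ Finset.Ico D (2 * Y), (S (j + 1) - S j)‖ := by
        rw [h1]
        exact norm_sub_le _ _
      have h4 := pow_le_pow_left₀ (norm_nonneg _) h3 2
      nlinarith [sq_nonneg (‖S (2 * Y)‖ - ‖∑ j ∈ Finset.Ico D (2 * Y), (S (j + 1) - S j)‖)]
    have h3 : ‖∑ j ∈ Finset.Ico D (2 * Y), (S (j + 1) - S j)‖ ^ 2 ≤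
        Y * ∑ j ∈ Finset.Ico Y (2 * Y), ‖S (j + 1) - S j‖ ^ 2 := by
      have h4 : ‖∑ j ∈ Finset.Ico D (2 * Y), (S (j + 1) - S j)‖ ^ 2 ≤
          (∑ j ∈ Finset.Ico D (2 * Y), ‖S (j + 1) - S j‖) ^ 2 :=
        pow_le_pow_left₀ (norm_nonneg _) (norm_sum_le _ _) 2
      have h5 : (∑ j ∈ Finset.Ico D (2 * Y), ‖S (j + 1) - S j‖) ^ 2 ≤
          (Finset.Ico D (2 * Y)).card * ∑ j ∈ Finset.Ico D (2 * Y), ‖S (j + 1) - S j‖ ^ 2 :=
        sq_sum_le_card_mul_sum_sq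
      have h6 : ((Finset.Ico D (2 * Y)).card : ℝ) ≤ Y := by
        rw [Nat.card_Ico]
        have : 2 * Y - D ≤ Y := by omega
        exact_mod_cast this
      have h7 : ∑ j ∈ Finset.Ico D (2 * Y), ‖S (j + 1) - S j‖ ^ 2 ≤
          ∑ j ∈ Finset.Ico Y (2 * Y), ‖S (j + 1) - S j‖ ^ 2 := by
        refine Finset.sum_le_sum_of_subset_of_nonneg ?_ fun _ _ _ => by positivity
        exact Finset.Ico_subset_Ico_left hD'.1
      exact (h4.trans h5).trans (mul_le_mul h6 h7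
        (Finset.sum_nonneg fun _ _ => by positivity) (Nat.cast_nonneg _))
    have h4 : ∑ j ∈ Finset.Ico Y (2 * Y),
        ‖∑' i, ((α i (j + 1) - α i j : ℝ) : ℂ) * ρ i D‖ ^ 2 =
        ∑ j ∈ Finset.Ico Y (2 * Y), ‖S (j + 1) - S j‖ ^ 2 :=
      Finset.sum_congr rfl fun j hj => by rw [hT j hj]
    rw [h4]
    show ‖S D‖ ^ 2 ≤ 2 * ‖S (2 * Y)‖ ^ 2 + _
    linarith
  refine (Finset.sum_le_sum key).trans (le_of_eq ?_)
  rw [Finset.sum_add_distrib, ← Finset.mul_sum, ← Finset.mul_sum, Finset.sum_comm]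

end Pool.Agent.H6.AD
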